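import Pool.Agent.K3h35.NX.Stm

set_option autoImplicit false
open MeasureTheory Filter Topology Set Metric

namespace Pool.Agent.K3h22.NX

open Pool.Agent.H314.Dir

theorem integrable_J {d : ℕ} {κ : Eu d → ℝ} (hκ : Continuous κ) (hc : HasCompactSupport κ)
    {g : Eu d → ℝ} (hg : Continuous g) (s : ℝ) (x : Eu d) :
    Integrable (fun y => g (x + s • y) * κ y) := by
  refine Continuous.integrable_of_hasCompactSupport ?_ ?_
  · exact (hg.comp (by fun_prop)).mul hκ
  · exact HasCompactSupport.mul_left hc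

theorem J_def {d : ℕ} (κ : Eu d → ℝ) (g : Eu d → ℝ) (s : ℝ) (x : Eu d) :
    J κ g s x = ∫ y, g (x + s • y) * κ y := rfl

/-- the average at radius `3R` around `0`, in the coordinates `z = x + R y` -/
theorem J_scale (κ : Eu 2 → ℝ) (g : Eu 2 → ℝ) {R : ℝ} (hR : 0 < R) (x : Eu 2) :
    J κ g (3 * R) 0 = 9⁻¹ * ∫ y, g (x + R • y) * κ ((3 : ℝ)⁻¹ • (y + R⁻¹ • x)) := by
  have h1 := Measure.integral_comp_smul (μ := (volume : Measure (Eu 2)))
    (fun w => g ((3 * R) • w) * κ w) (3 : ℝ)⁻¹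
  have h2 := integral_add_right_eq_self (μ := (volume : Measure (Eu 2)))
    (fun w => g ((3 * R) • ((3 : ℝ)⁻¹ • w)) * κ ((3 : ℝ)⁻¹ • w)) (R⁻¹ • x)
  rw [h1] at h2
  rw [J_def]
  simp only [zero_add]
  have h3 : ∀ y : Eu 2, (3 * R) • ((3 : ℝ)⁻¹ • (y + R⁻¹ • x)) = x + R • y := by
    intro y
    rw [smul_smul, smul_add, smul_smul]
    have e1 : 3 * R * 3⁻¹ = R := by ring
    rw [e1, mul_inv_cancel₀ hR.ne', one_smul, add_comm]
  simp only [h3] at h2
  rw [h2]
  rw [finrank_euclideanSpace, Fintype.card_fin, smul_eq_mul]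
  rw [abs_of_pos (by positivity)]
  ring

theorem rho_le {d : ℕ} (y : Eu d) : rho y ≤ (cst d)⁻¹ := by
  have hc := cst_pos d
  rw [rho, div_eq_mul_inv]
  refine mul_le_of_le_one_left (by positivity) ?_
  rw [rho0]
  refine pow_le_one₀ (le_max_left _ _) (max_le (by norm_num) (by nlinarith [sq_nonneg ‖y‖]))

theorem rho_ge {d : ℕ} {y : Eu d} (hy : ‖y‖ ≤ 2 / 3) : 6⁻¹ * (cst d)⁻¹ ≤ rho y := by
  have hc := cst_pos d
  rw [rho, div_eq_mul_inv]
  refine mul_le_mul_of_nonneg_right ?_ (by positivity)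
  rw [rho0]
  have h1 : 5 / 9 ≤ max 0 (1 - ‖y‖ ^ 2) := by
    refine le_max_of_le_right ?_
    have := norm_nonneg y
    nlinarith
  calc (6 : ℝ)⁻¹ ≤ (5 / 9) ^ 3 := by norm_num
    _ ≤ _ := pow_le_pow_left₀ (by norm_num) h1 3

/-- an inequality of Harnack type for nonnegative functions and averages -/
theorem harnack {g : Eu 2 → ℝ} (hg : Continuous g) (h0 : ∀ x, 0 ≤ g x) {R : ℝ} (hR : 0 < R)
    {x : Eu 2} (hx : ‖x‖ ≤ R) : J rho g R x ≤ 54 * J rho g (3 * R) 0 := by
  have hc := cst_pos 2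
  rw [J_scale rho g hR x, ← mul_assoc, ← integral_const_mul, J_def]
  have hi : Integrable (fun y => g (x + R • y) * rho y) :=
    integrable_J contDiff_rho.continuous hasCompactSupport_rho hg R x
  refine integral_mono_of_nonneg (Eventually.of_forall fun y => mul_nonneg (h0 _) (rho_nonneg y))
    ?_ (Eventually.of_forall fun y => ?_)
  · refine Integrable.const_mul ?_ _
    refine Continuous.integrable_of_hasCompactSupport ?_ ?_
    · exact (hg.comp (by fun_prop)).mul (contDiff_rho.continuous.comp (by fun_prop))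
    · refine HasCompactSupport.mul_left ?_
      have h3 : (3 : ℝ)⁻¹ ≠ 0 := by norm_num
      have : (fun y : Eu 2 => rho ((3 : ℝ)⁻¹ • (y + R⁻¹ • x))) =
          rho ∘ ((Homeomorph.addRight (R⁻¹ • x)).trans (Homeomorph.smulOfNeZero (3 : ℝ)⁻¹ h3)) := by
        funext y; rfl
      rw [this]
      exact hasCompactSupport_rho.comp_homeomorph _
  · simp only
    have h2 : rho y ≤ 6 * rho ((3 : ℝ)⁻¹ • (y + R⁻¹ • x)) := by
      rcases le_or_gt 1 ‖y‖ with hy | hy
      · rw [rho_eq_zero hy]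
        exact mul_nonneg (by norm_num) (rho_nonneg _)
      · have h4 : ‖(3 : ℝ)⁻¹ • (y + R⁻¹ • x)‖ ≤ 2 / 3 := by
          rw [norm_smul]
          have h5 : ‖R⁻¹ • x‖ ≤ 1 := by
            rw [norm_smul, Real.norm_of_nonneg (by positivity), ← div_eq_inv_mul]
            exact div_le_one_of_le₀ hx hR.le
          have h6 := norm_add_le y (R⁻¹ • x)
          rw [Real.norm_of_nonneg (by norm_num)]
          linarith
        have h7 := rho_ge h4
        have h8 := rho_le y
        linarith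
    have h9 := mul_le_mul_of_nonneg_left h2 (h0 (x + R • y))
    linarith

end Pool.Agent.K3h22.NX
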