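import Pool.Agent.K3h22.NX.Com
import Pool.Agent.K3h3.GAH.T1

set_option autoImplicit false
open MeasureTheory Filter Topology Set Metric

namespace Pool.Agent.K3h22.NX

open Pool.Agent.H314.Dir Pool.Agent.K3h35.NX Pool.Agent.K3h3.GAH

theorem J_const_sub {h : Eu 2 → ℝ} (hh : Continuous h) (C : ℝ) (s : ℝ) (x : Eu 2) :
    J rho (fun y => C - h y) s x = C - J rho h s x := by
  have h1 : Integrable (fun y : Eu 2 => C * rho y) := by
    have := integrable_J (κ := rho) (contDiff_rho (d := 2)).continuous hasCompactSupport_rho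
      (g := fun _ => C) continuous_const s x
    exact this
  have h2 := integrable_J (κ := rho) (contDiff_rho (d := 2)).continuous hasCompactSupport_rho hh s x
  rw [J_def, J_def]
  simp only [sub_mul]
  rw [integral_sub h1 h2, integral_const_mul, integral_rho, mul_one]

theorem J_nonneg {κ : Eu 2 → ℝ} (hκ : ∀ y, 0 ≤ κ y) {f : Eu 2 → ℝ} (hf : ∀ y, 0 ≤ f y) (s : ℝ)
    (x : Eu 2) : 0 ≤ J κ f s x := integral_nonneg fun y => mul_nonneg (hf _) (hκ _)

theorem t_X3 : St_X3 := by
  intro h C hh hlap hint hC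
  set μ : Eu 2 → ℝ := fun y => - lap h y with hμ
  have hμ0 : ∀ y, 0 ≤ μ y := fun y => neg_nonneg.2 (hlap y)
  have hμi : Integrable μ := hint.neg
  obtain ⟨M, hM0, hM⟩ := exists_sig_bound
  set K : ℝ := M * ∫ y, |μ y| with hK
  have hK0 : 0 ≤ K := mul_nonneg hM0 (integral_nonneg fun _ => abs_nonneg _)
  set C1 : ℝ := ∫ s in (0 : ℝ)..1, s * J sig μ s 0 with hC1
  have hnn : ∀ (a b : ℝ), 0 ≤ a → a ≤ b → ∀ x : Eu 2, 0 ≤ ∫ s in a..b, s * J sig μ s x := by
    intro a b ha hab x
    refine intervalIntegral.integral_nonneg hab fun s hs => ?_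
    exact mul_nonneg (ha.trans hs.1) (J_nonneg sig_nonneg hμ0 s x)
  have hC10 : 0 ≤ C1 := hnn 0 1 le_rfl zero_le_one 0
  have key : ∀ R' : ℝ, 1 ≤ R' → ∫ s in (0 : ℝ)..R', s * J sig μ s 0 ≤ C1 + K * Real.log R' := by
    intro R' hR'
    have hlog : 0 ≤ Real.log R' := Real.log_nonneg hR'
    by_cases hI : IntervalIntegrable (fun s => s * J sig μ s 0) volume 0 R'
    · have hI1 : IntervalIntegrable (fun s => s * J sig μ s 0) volume 0 1 :=
        hI.mono_set (by rw [uIcc_of_le zero_le_one, uIcc_of_le (by linarith)]; exact Icc_subset_Icc_right hR')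
      have hI2 : IntervalIntegrable (fun s => s * J sig μ s 0) volume 1 R' :=
        hI.mono_set (by rw [uIcc_of_le hR', uIcc_of_le (by linarith)]; exact Icc_subset_Icc_left zero_le_one)
      rw [← intervalIntegral.integral_add_adjacent_intervals hI1 hI2]
      refine add_le_add le_rfl ?_
      have h1 : ∫ s in (1 : ℝ)..R', s⁻¹ = Real.log R' := by
        rw [integral_inv_of_pos one_pos (by linarith), div_one]
      rw [← h1, ← intervalIntegral.integral_const_mul]
      refine intervalIntegral.integral_mono_on hR' hI2 ?_ fun s hs => ?_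
      · refine (ContinuousOn.intervalIntegrable ?_).const_mul _
        refine continuousOn_inv₀.mono fun s hs => ?_
        rw [uIcc_of_le hR'] at hs
        have : (0 : ℝ) < s := by linarith [hs.1]
        exact this.ne'
      · have hs0 : (0 : ℝ) < s := by linarith [hs.1]
        have h2 := (le_abs_self _).trans (abs_J_le hM hμi hs0 0)
        calc s * J sig μ s 0 ≤ s * ((s ^ 2)⁻¹ * K) := mul_le_mul_of_nonneg_left h2 hs0.le
          _ = (s * s⁻¹) * (K * s⁻¹) := by rw [sq, mul_inv]; ring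
          _ = K * s⁻¹ := by rw [mul_inv_cancel₀ hs0.ne', one_mul]
    · rw [intervalIntegral.integral_undef hI]
      have := mul_nonneg hK0 hlog
      linarith
  refine ⟨|C| + 54 * (|C - h 0| + C1 + 3 * K), fun x => ?_⟩
  have hx0 := norm_nonneg x
  have hR : (0 : ℝ) < 1 + ‖x‖ := by linarith
  have r1 := rep hh hR x
  have r2 := hnn 0 (1 + ‖x‖) le_rfl hR.le x
  have r3 := rep hh (show (0 : ℝ) < 3 * (1 + ‖x‖) by linarith) 0
  have r4 := key (3 * (1 + ‖x‖)) (by linarith)
  have hk := harnack (g := fun y => C - h y) (continuous_const.sub hh.continuous)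
    (fun y => sub_nonneg.2 (hC y)) hR (x := x) (by linarith)
  rw [J_const_sub hh.continuous, J_const_sub hh.continuous] at hk
  have l1 : Real.log (3 * (1 + ‖x‖)) ≤ 3 + Real.log (1 + ‖x‖ ^ 2) := by
    rw [Real.log_mul (by norm_num) hR.ne']
    have l2 := log_one_add_le hx0
    have l3 : Real.log 3 ≤ 2 := by
      have := Real.log_le_sub_one_of_pos (by norm_num : (0 : ℝ) < 3)
      linarith
    linarith
  have l4 : 0 ≤ Real.log (1 + ‖x‖ ^ 2) := Real.log_nonneg (by nlinarith [sq_nonneg ‖x‖])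
  have l5 := mul_le_mul_of_nonneg_left l1 hK0
  have l6 := le_abs_self (C - h 0)
  have l7 := neg_abs_le C
  have l8 : 0 ≤ (|C| + 54 * (|C - h 0| + C1)) * Real.log (1 + ‖x‖ ^ 2) :=
    mul_nonneg (by have := abs_nonneg C; have := abs_nonneg (C - h 0); linarith) l4
  have l9 : 0 ≤ K * Real.log (1 + ‖x‖ ^ 2) := mul_nonneg hK0 l4
  change ∫ s in (0 : ℝ)..(3 * (1 + ‖x‖)), s * J sig (fun y => - lap h y) s 0 ≤ _ at r4
  change 0 ≤ ∫ s in (0 : ℝ)..(1 + ‖x‖), s * J sig (fun y => - lap h y) s x at r2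
  nlinarith

end Pool.Agent.K3h22.NX
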